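import Pool.Agent.Z700.Defs3
import Pool.Agent.Z419.Bil1

/-!
# The product of two Gross sums as a sum over pairs of vectors, general family
-/

set_option autoImplicit false

namespace Pool.Agent.Y941.ZB

open Finset Matrix Pool.Agent.Z701
open Pool.Agent.Z700 (V3 vec pr chi3 chv Ln n0 ep sgl)

lemma pr_aux {D : Finset ℕ} (hD : ∀ p ∈ D, Sp p ∨ Nr p) :
    (Even (inr D).card → pr D % 8 = 1) ∧ (¬ Even (inr D).card → pr D % 8 = 5) := by
  classical
  unfold pr inr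
  induction D using Finset.induction_on with
  | empty => simp
  | insert a s ha ih =>
    have ih' := ih fun p hp => hD p (Finset.mem_insert_of_mem hp)
    rw [Finset.prod_insert ha, Finset.filter_insert]
    rcases hD a (Finset.mem_insert_self _ _) with h | h
    · have h8 : a % 8 = 1 := h.2.1
      rw [if_neg (by omega), Nat.mul_mod, h8]
      refine ⟨fun he => ?_, fun he => ?_⟩
      · rw [ih'.1 he]
      · rw [ih'.2 he]
    · have h8 : a % 8 = 5 := h.2.1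
      rw [if_pos h8, Finset.card_insert_of_notMem (fun h' => ha (Finset.mem_filter.1 h').1),
        Nat.even_add_one, not_not, Nat.mul_mod, h8]
      refine ⟨fun he => ?_, fun he => ?_⟩
      · rw [ih'.2 he]
      · rw [ih'.1 he]

lemma pr_mod {D : Finset ℕ} (hD : Gd D) : pr D % 8 = 1 := (pr_aux hD.1).1 hD.2

lemma pr_ne7 {D : Finset ℕ} (hD : Gd D) : (pr D : ZMod 7) ≠ 0 := by
  unfold pr
  push_cast
  refine Finset.prod_ne_zero_iff.2 fun p hp h => ?_
  rw [ZMod.natCast_eq_zero_iff] at h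
  rcases hD.1 p hp with h1 | h1
  · have := h1.2.2
    omega
  · have := h1.2.2
    omega

lemma be_ne {D : Finset ℕ} : be D ≠ 0 := by
  unfold be
  refine mul_ne_zero (mul_ne_zero (by decide) (pow_ne_zero _ (by decide)))
    (Finset.prod_ne_zero_iff.2 fun p _ => ?_)
  unfold sq7
  split_ifs <;> decide

lemma be_empty : be ∅ = 2 := by simp [be, inr]

lemma pr_empty : (3 * (pr ∅ : ℤ)) = 3 := by simp [pr]

lemma pii_empty (h1 : Pool.Agent.Z700.S_SG1) : pii ∅ = 1 := by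
  have h2 := h1 n0 (by decide) (by decide)
  have h3 : sgl n0 = 1 := by decide
  rw [if_pos h3, if_pos h3] at h2
  unfold pii
  rw [be_empty, pr_empty]
  have h4 : ∑ v ∈ (vec 3).filter (fun v => Ln n0 2 v), chv v =
      Pool.Agent.Z700.Sg 3 n0 2 1 + Pool.Agent.Z700.Sg 3 n0 2 (-1) := by
    unfold Pool.Agent.Z700.Sg
    rw [Finset.sum_filter, Finset.sum_filter, Finset.sum_filter, ← Finset.sum_add_distrib]
    refine Finset.sum_congr rfl fun v _ => ?_
    by_cases a : Ln n0 2 v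
    · rcases Pool.Agent.Z419.ep_cases v with h | h <;> simp [a, h]
    · simp [a]
  rw [h4, h2.1, h2.2]
  norm_num

/-- the contribution of one line -/
lemma line_val (h : S_SG) (h1 : Pool.Agent.Z700.S_SG1) {D1 D2 : Finset ℕ} (hD1 : Gd D1)
    (hD2 : Gd D2) (hne : D1.Nonempty ∨ D2.Nonempty) (n : Fin 3 → ZMod 7) (hn : n ≠ 0)
    (hi : n 0 ^ 2 + n 1 ^ 2 + n 2 ^ 2 = 0) :
    2 * (Pool.Agent.Z700.Sg (3 * (pr D1 : ℤ)) n (be D1) 1 *
        Pool.Agent.Z700.Sg (3 * (pr D2 : ℤ)) n (be D2) (-1) +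
      Pool.Agent.Z700.Sg (3 * (pr D1 : ℤ)) n (be D1) (-1) *
        Pool.Agent.Z700.Sg (3 * (pr D2 : ℤ)) n (be D2) 1) = pii D1 * pii D2 := by
  have hE := h1 n hn hi
  rcases D1.eq_empty_or_nonempty with e1 | e1
  · rcases D2.eq_empty_or_nonempty with e2 | e2
    · subst e1 e2
      simp at hne
    · subst e1
      have k1 := h D2 hD2 e2 n hn hi 1 (Or.inl rfl)
      have k2 := h D2 hD2 e2 n hn hi (-1) (Or.inr rfl)
      rw [be_empty, pr_empty, hE.1, hE.2, pii_empty h1]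
      rcases Pool.Agent.Z419.sgl_cases n with s | s
      · rw [s] at k1 k2 ⊢
        norm_num
        linarith
      · rw [s] at k1 k2 ⊢
        norm_num
        linarith
  · rcases D2.eq_empty_or_nonempty with e2 | e2
    · subst e2
      have k1 := h D1 hD1 e1 n hn hi 1 (Or.inl rfl)
      have k2 := h D1 hD1 e1 n hn hi (-1) (Or.inr rfl)
      rw [be_empty, pr_empty, hE.1, hE.2, pii_empty h1]
      rcases Pool.Agent.Z419.sgl_cases n with s | s
      · rw [s] at k1 k2 ⊢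
        norm_num
        linarith
      · rw [s] at k1 k2 ⊢
        norm_num
        linarith
    · have k1 := h D1 hD1 e1 n hn hi 1 (Or.inl rfl)
      have k2 := h D1 hD1 e1 n hn hi (-1) (Or.inr rfl)
      have k3 := h D2 hD2 e2 n hn hi 1 (Or.inl rfl)
      have k4 := h D2 hD2 e2 n hn hi (-1) (Or.inr rfl)
      have hs : sgl n * sgl n = 1 := by
        rcases Pool.Agent.Z419.sgl_cases n with s | s <;> rw [s] <;> norm_num
      have e5 : (2 * Pool.Agent.Z700.Sg (3 * (pr D1 : ℤ)) n (be D1) 1) *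
          (2 * Pool.Agent.Z700.Sg (3 * (pr D2 : ℤ)) n (be D2) (-1)) = pii D1 * pii D2 := by
        rw [k1, k4]
        linear_combination (pii D1 * pii D2) * hs
      have e6 : (2 * Pool.Agent.Z700.Sg (3 * (pr D1 : ℤ)) n (be D1) (-1)) *
          (2 * Pool.Agent.Z700.Sg (3 * (pr D2 : ℤ)) n (be D2) 1) = pii D1 * pii D2 := by
        rw [k2, k3]
        linear_combination (pii D1 * pii D2) * hs
      linarith

theorem t_BIL1 (h : Pool.Agent.Z701.S_SG) (h1 : Pool.Agent.Z700.S_SG1) :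
    Pool.Agent.Z701.S_BIL1 := by
  rintro D1 D2 ⟨hD1, hD2, _, hne⟩
  have m1 := pr_mod hD1
  have m2 := pr_mod hD2
  have c7 : ((3 * (pr D1 : ℤ) : ℤ) : ZMod 7) ≠ 0 := by
    push_cast
    exact mul_ne_zero (by decide) (pr_ne7 hD1)
  have k := Pool.Agent.Z419.rhs_eq (N1 := 3 * (pr D1 : ℤ)) (N2 := 3 * (pr D2 : ℤ))
    (B := 9 * (pr D1 : ℤ) * (pr D2 : ℤ)) (β1 := be D1) (β2 := be D2)
    (by omega) (by omega) (by omega) (by omega) (by ring) be_ne c7
  have k2 : 2 * ∑ n : Fin 3 → ZMod 7, (if n ≠ 0 ∧ n 0 ^ 2 + n 1 ^ 2 + n 2 ^ 2 = 0 then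
        Pool.Agent.Z700.Sg (3 * (pr D1 : ℤ)) n (be D1) 1 *
          Pool.Agent.Z700.Sg (3 * (pr D2 : ℤ)) n (be D2) (-1) +
        Pool.Agent.Z700.Sg (3 * (pr D1 : ℤ)) n (be D1) (-1) *
          Pool.Agent.Z700.Sg (3 * (pr D2 : ℤ)) n (be D2) 1 else 0) =
      48 * (pii D1 * pii D2) := by
    rw [Finset.mul_sum]
    have k3 : ∀ n : Fin 3 → ZMod 7, (2 * if n ≠ 0 ∧ n 0 ^ 2 + n 1 ^ 2 + n 2 ^ 2 = 0 then
        Pool.Agent.Z700.Sg (3 * (pr D1 : ℤ)) n (be D1) 1 *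
          Pool.Agent.Z700.Sg (3 * (pr D2 : ℤ)) n (be D2) (-1) +
        Pool.Agent.Z700.Sg (3 * (pr D1 : ℤ)) n (be D1) (-1) *
          Pool.Agent.Z700.Sg (3 * (pr D2 : ℤ)) n (be D2) 1 else 0) =
        if n ≠ 0 ∧ n 0 ^ 2 + n 1 ^ 2 + n 2 ^ 2 = 0 then pii D1 * pii D2 else 0 := by
      intro n
      by_cases hn : n ≠ 0 ∧ n 0 ^ 2 + n 1 ^ 2 + n 2 ^ 2 = 0
      · rw [if_pos hn, if_pos hn, line_val h h1 hD1 hD2 hne n hn.1 hn.2]
      · rw [if_neg hn, if_neg hn, mul_zero]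
    rw [Finset.sum_congr rfl fun n _ => k3 n, ← Finset.sum_filter, Finset.sum_const,
      Pool.Agent.Z419.card48, nsmul_eq_mul]
    norm_num
  have k4 : ∑ b ∈ (Ioo (-(9 * (pr D1 : ℤ) * (pr D2 : ℤ))) (9 * (pr D1 : ℤ) * (pr D2 : ℤ))).filter
      (fun b : ℤ => b % 4 = 1), DD D1 D2 b =
      ∑ b ∈ (Ioo (-(9 * (pr D1 : ℤ) * (pr D2 : ℤ))) (9 * (pr D1 : ℤ) * (pr D2 : ℤ))).filter
      (fun b : ℤ => b % 4 = 1), Pool.Agent.Z700.DD (3 * (pr D1 : ℤ)) (3 * (pr D2 : ℤ))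
        (be D1) (be D2) b := rfl
  rw [k4]
  linarith

end Pool.Agent.Y941.ZB
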